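import Pool.Agent.H36.AG.E3

/-! row END of the board gap_modules (MP_c59857_nt) -/

set_option autoImplicit false

open MeasureTheory ProbabilityTheory Filter Topology Finset
open scoped Nat ENNReal

namespace Pool.Agent.H36.AG

open Pool.Agent.H67.AG

/-- the classes are nearly invariant, hence the function has no mass on them -/
theorem class_zero (hpm : T_PM) (hpe : T_PE) (hai : T_AI) {X : Type} [MeasurableSpace X]
    [StandardBorelSpace X] (μ : Measure X) [IsProbabilityMeasure μ] (T : X ≃ᵐ X)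
    (hT : MeasurePreserving T μ μ) (D : X → ℝ) (hDm : Measurable D) (hD1 : ∀ x, |D x| ≤ 1) (b : ℕ)
    (mr : ∀ W, 0 < W → μ[D | Inv T W] =ᵐ[μ] 0) (r : ℕ) (C : Fin r → Set X) (c₀ : ℝ) (hc : 0 < c₀)
    (hC : ∀ a, MeasurableSet (C a) ∧ c₀ ≤ μ.real (C a))
    (hdis : Pairwise fun a b => Disjoint (C a) (C b))
    (hnear : ∀ ε : ℝ, 0 < ε → ∃ W : ℕ, 0 < W ∧ ∀ n : ℕ, (μ.prod μ).real
      (symmDiff (SS C) ((TT T)^[W * n] ⁻¹' (SS C))) ≤ ε) (a : Fin r) :
    ∫ x in C a, D (T^[b] x) ∂μ = 0 := by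
  by_contra hne
  have ht : 0 < |∫ x in C a, D (T^[b] x) ∂μ| := abs_pos.2 hne
  set t := |∫ x in C a, D (T^[b] x) ∂μ| with ht'
  set ε : ℝ := min (c₀ ^ 2 / 20) (t * c₀ / 4) with hε
  have hε0 : 0 < ε := lt_min (by positivity) (by positivity)
  have h20 : 20 * ε ≤ c₀ ^ 2 := by
    have := min_le_left (c₀ ^ 2 / 20) (t * c₀ / 4)
    rw [← hε] at this
    linarith
  have h2t : 2 * ε / c₀ ≤ t / 2 := by
    have := min_le_right (c₀ ^ 2 / 20) (t * c₀ / 4)
    rw [← hε] at this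
    rw [div_le_iff₀ hc]
    linarith
  obtain ⟨W, hW, hn⟩ := hnear ε hε0
  have h1 : ∀ n : ℕ, ∀ a, ∃ b, μ.real (symmDiff (C a) (T^[W * n] ⁻¹' C b)) ≤ 2 * ε / c₀ :=
    fun n => hpm X μ T r C c₀ ε hT hc hε0 h20 hC hdis (W * n) (hn n)
  have h4 : 4 * (2 * ε / c₀) < c₀ := by
    have : 4 * (2 * ε / c₀) = 8 * ε / c₀ := by ring
    rw [this, div_lt_iff₀ hc]
    nlinarith
  have h2 := hpe X μ T W r C c₀ (2 * ε / c₀) hT hc (by positivity) h4 hC hdis h1
  have h3 := hai X μ T (W * r !) (C a) (2 * ε / c₀) hT (hC a).1 (fun n => h2 n a)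
  have hWr : 0 < W * r ! := Nat.mul_pos hW (Nat.factorial_pos r)
  have h5 := int_small μ T hT (W * r !) b D hDm hD1 (mr _ hWr) (C a) (hC a).1 _ h3
  rw [← ht'] at h5
  linarith

/-- a set which is nearly rational is nearly invariant -/
theorem near_inv (hrs : T_RS) {X : Type} [MeasurableSpace X] (P : Measure X)
    [IsProbabilityMeasure P] (S : X ≃ᵐ X) (hS : MeasurePreserving S P P) (B R2 : Set X)
    (hB : MeasurableSet B) (hR2 : MeasurableSet[Rt S] R2) (hae : R2 =ᵐ[P] B) (ε : ℝ) (hε : 0 < ε) :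
    ∃ W : ℕ, 0 < W ∧ ∀ n : ℕ, P.real (symmDiff B (S^[W * n] ⁻¹' B)) ≤ ε := by
  obtain ⟨w₀, hw⟩ := hrs X P S R2 (ε / 2) hR2 (by positivity)
  obtain ⟨A', hA', hle⟩ := hw (w₀ !) (Nat.factorial_pos _) dvd_rfl
  rw [inv_iff] at hA'
  refine ⟨w₀ !, Nat.factorial_pos _, fun n => ?_⟩
  have hA2 : S^[w₀ ! * n] ⁻¹' A' = A' := inv_mul S _ n A' hA'.2
  have hn : MeasurePreserving (S^[w₀ ! * n]) P P := hS.iterate _
  have e1 : P.real (symmDiff B A') = P.real (symmDiff R2 A') := by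
    refine measureReal_congr ?_
    filter_upwards [hae] with x hx
    have hx' : (x ∈ R2) = (x ∈ B) := hx
    change (x ∈ symmDiff B A') = (x ∈ symmDiff R2 A')
    simp only [Set.mem_symmDiff, hx']
  have hm : MeasurableSet (symmDiff B A') := hB.symmDiff hA'.1
  have hsub : symmDiff B (S^[w₀ ! * n] ⁻¹' B) ⊆
      symmDiff B A' ∪ S^[w₀ ! * n] ⁻¹' (symmDiff B A') := by
    intro x hx
    have hxA : (S^[w₀ ! * n] x ∈ A') ↔ x ∈ A' := Set.ext_iff.1 hA2 x
    simp only [Set.mem_union, Set.mem_preimage, Set.mem_symmDiff] at hx ⊢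
    tauto
  calc P.real (symmDiff B (S^[w₀ ! * n] ⁻¹' B))
      ≤ P.real (symmDiff B A' ∪ S^[w₀ ! * n] ⁻¹' (symmDiff B A')) :=
        measureReal_mono hsub
    _ ≤ P.real (symmDiff B A') + P.real (S^[w₀ ! * n] ⁻¹' (symmDiff B A')) :=
        measureReal_union_le _ _
    _ = P.real (symmDiff B A') + P.real (symmDiff B A') := by
        rw [hn.measureReal_preimage hm.nullMeasurableSet]
    _ ≤ ε := by rw [e1]; linarith

/-- the mismatch of one coordinate in terms of the product -/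
theorem dl_eq {X : Type} {k : ℕ} (Dt : Fin k → X → ℝ) (hv : ∀ i x, Dt i x = 1 ∨ Dt i x = -1)
    (i : Fin k) (q : X × X) :
    dl (fun i (q : X × X) => Dt i q.1) (fun i (q : X × X) => Dt i q.2) i q =
      (1 - Dt i q.1 * Dt i q.2) / 2 := by
  unfold dl
  rcases hv i q.1 with h1 | h1 <;> rcases hv i q.2 with h2 | h2 <;> simp only [h1, h2] <;> norm_num

theorem end_core (htri : T_TRI) (hmn : T_MN) (hcl : T_CL) (hpm : T_PM) (hpe : T_PE) (hai : T_AI)
    (hrs : T_RS) (hdu : T_DU) {X : Type} [MeasurableSpace X]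
    [StandardBorelSpace X] (μ : Measure X) [IsProbabilityMeasure μ] (T : X ≃ᵐ X)
    (hT : MeasurePreserving T μ μ) {k : ℕ} (Dt : Fin k → X → ℝ) (hDt : Tup Dt) (i₀ : Fin k)
    (D : X → ℝ) (hDm : Measurable D) (hD1 : ∀ x, |D x| ≤ 1) (b : ℕ)
    (hDb : ∀ x, Dt i₀ x = D (T^[b] x)) (mr : ∀ W, 0 < W → μ[D | Inv T W] =ᵐ[μ] 0) (Xg : Set X)
    (hXg : MeasurableSet[Rt T] Xg)
    (hM : ∀ᵐ q ∂(μ.prod μ), q ∈ RR (μ.prod μ) T Dt Xg → MM μ T Dt q ≤ 1 / 600)
    (hpos : 0 < (μ.prod μ).real (RR (μ.prod μ) T Dt Xg)) : False := by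
  have hT2 := tt_mp μ T hT
  have hRt : MeasurableSet[Rt (TT T)] (RR (μ.prod μ) T Dt Xg) := RR_meas _ T Dt Xg hXg
  obtain ⟨hsym, htrans⟩ := rel_st μ T Dt Xg htri hmn hT hDt hM
  set P : Measure (X × X) := μ.prod μ with hP
  set R : Set (X × X) := RR P T Dt Xg with hRdef
  have hR : MeasurableSet R := rt_le _ _ hRt
  set c₀ : ℝ := P.real R / 4 with hc0
  have hc : 0 < c₀ := by rw [hc0]; linarith
  obtain ⟨s1, s2⟩ := small_sec μ R hR c₀ hc hsym
  obtain ⟨r, C, hC, hdis, hae⟩ := hcl X μ R c₀ hR hc hsym htrans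
  have hSm : MeasurableSet (SS C) := SS_meas C fun a => (hC a).1
  have hSpos : 0 < P.real (SS C) := by
    have h1 : P.real R ≤ P.real (SS C ∪ ({q | q ∈ R ∧ μ.real {x' | (q.1, x') ∈ R} < c₀} ∪
        {q | q ∈ R ∧ μ.real {x' | (q.2, x') ∈ R} < c₀})) := by
      refine ENNReal.toReal_mono (measure_ne_top _ _) (measure_mono_ae ?_)
      filter_upwards [hae] with q hq hqR
      by_cases h1 : μ.real {x' | (q.1, x') ∈ R} < c₀
      · exact Or.inr (Or.inl ⟨hqR, h1⟩)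
      by_cases h2 : μ.real {x' | (q.2, x') ∈ R} < c₀
      · exact Or.inr (Or.inr ⟨hqR, h2⟩)
      · exact Or.inl (hq.1 ⟨hqR, not_lt.1 h1, not_lt.1 h2⟩)
    have h2 := measureReal_union_le (μ := P) (SS C) ({q | q ∈ R ∧ μ.real {x' | (q.1, x') ∈ R} < c₀} ∪
        {q | q ∈ R ∧ μ.real {x' | (q.2, x') ∈ R} < c₀})
    have h3 := measureReal_union_le (μ := P) {q | q ∈ R ∧ μ.real {x' | (q.1, x') ∈ R} < c₀}
        {q | q ∈ R ∧ μ.real {x' | (q.2, x') ∈ R} < c₀}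
    have h4 : P.real R = 4 * c₀ := by rw [hc0]; ring
    linarith
  -- the dual function
  have hind : Measurable[Rt (TT T)] (R.indicator fun _ => (1 : ℝ)) :=
    Measurable.indicator measurable_const hRt
  obtain ⟨ps, hps, h01, hdu'⟩ := hdu (X × X) X P μ (TT T) T Prod.fst (R.indicator fun _ => (1 : ℝ))
    hT2 hT ⟨measurePreserving_fst, fun _ => rfl⟩ hind
    (fun q => by by_cases hq : q ∈ R <;> simp [hq])
  have hpsae := sec_ae μ R hR ps (hps.mono (rt_le _) le_rfl) h01 hdu'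
  have hpc : MeasurableSet[Rt T] {x | c₀ ≤ ps x} := hps (measurableSet_Ici (a := c₀))
  have hR2 : MeasurableSet[Rt (TT T)] (R ∩ ({q : X × X | q.1 ∈ {x | c₀ ≤ ps x}} ∩
      {q : X × X | q.2 ∈ {x | c₀ ≤ ps x}})) :=
    hRt.inter ((rt_fst T _ hpc).inter (rt_snd T _ hpc))
  set R2 : Set (X × X) := R ∩ ({q : X × X | q.1 ∈ {x | c₀ ≤ ps x}} ∩
      {q : X × X | q.2 ∈ {x | c₀ ≤ ps x}}) with hR2def
  have hR2S : R2 =ᵐ[P] SS C := by
    have m1 : MeasurePreserving (Prod.fst : X × X → X) P μ := measurePreserving_fst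
    have m2 : MeasurePreserving (Prod.snd : X × X → X) P μ := measurePreserving_snd
    filter_upwards [hae, m1.quasiMeasurePreserving.ae hpsae,
      m2.quasiMeasurePreserving.ae hpsae] with q hq e1 e2
    refine propext ?_
    change (q ∈ R ∧ c₀ ≤ ps q.1 ∧ c₀ ≤ ps q.2) ↔ _
    rw [e1, e2]
    exact hq
  have hnear : ∀ ε : ℝ, 0 < ε → ∃ W : ℕ, 0 < W ∧ ∀ n : ℕ, P.real
      (symmDiff (SS C) ((TT T)^[W * n] ⁻¹' (SS C))) ≤ ε :=
    fun ε hε => near_inv hrs P (TT T) hT2 (SS C) R2 hSm hR2 hR2S ε hε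
  have hz : ∀ a, ∫ x in C a, Dt i₀ x ∂μ = 0 := by
    intro a
    have := class_zero hpm hpe hai μ T hT D hDm hD1 b mr r C c₀ hc hC hdis hnear a
    rw [← this]
    exact integral_congr_ae (ae_of_all _ fun x => hDb x)
  have hu1 : ∀ x, |Dt i₀ x| ≤ 1 := fun x => by
    rcases hDt.2 i₀ x with h | h <;> rw [h] <;> norm_num
  have hprod := SS_int μ C (fun a => (hC a).1) hdis (Dt i₀) (hDt.1 i₀) hu1 hz
  -- the integral of the mismatch
  have t1 : Tup (fun (i : Fin k) (q : X × X) => Dt i q.1) :=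
    ⟨fun i => (hDt.1 i).comp measurable_fst, fun i q => hDt.2 i q.1⟩
  have t2 : Tup (fun (i : Fin k) (q : X × X) => Dt i q.2) :=
    ⟨fun i => (hDt.1 i).comp measurable_snd, fun i q => hDt.2 i q.2⟩
  have hdi : ∀ i, Integrable (dl (fun (i : Fin k) (q : X × X) => Dt i q.1)
      (fun (i : Fin k) (q : X × X) => Dt i q.2) i) P := fun i =>
    Integrable.of_bound (dl_meas _ _ t1 t2 i).aestronglyMeasurable 1 (ae_of_all _ fun q => by
      rw [Real.norm_eq_abs, abs_of_nonneg (dl_01 _ _ i q).1]; exact (dl_01 _ _ i q).2)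
  have hpi : Integrable (fun q : X × X => Dt i₀ q.1 * Dt i₀ q.2) P := by
    refine Integrable.of_bound (((hDt.1 i₀).comp measurable_fst).mul
      ((hDt.1 i₀).comp measurable_snd)).aestronglyMeasurable 1 (ae_of_all _ fun q => ?_)
    rw [Real.norm_eq_abs, abs_mul]
    have h1 := hu1 q.1
    have h2 := hu1 q.2
    have h3 := abs_nonneg (Dt i₀ q.1)
    have h4 := abs_nonneg (Dt i₀ q.2)
    nlinarith
  have e1 : ∫ q in SS C, dl (fun (i : Fin k) (q : X × X) => Dt i q.1)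
      (fun (i : Fin k) (q : X × X) => Dt i q.2) i₀ q ∂P = P.real (SS C) / 2 := by
    have e0 : ∀ q : X × X, dl (fun (i : Fin k) (q : X × X) => Dt i q.1)
      (fun (i : Fin k) (q : X × X) => Dt i q.2) i₀ q =
        1 / 2 - (1 / 2) * (Dt i₀ q.1 * Dt i₀ q.2) := fun q => by
      rw [dl_eq Dt hDt.2 i₀ q]; ring
    simp only [e0]
    rw [integral_sub (integrable_const _) (hpi.integrableOn.const_mul _), integral_const_mul, hprod]
    simp [Measure.real, mul_comm]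
    ring
  have e2 : ∫ q in R2, dl (fun (i : Fin k) (q : X × X) => Dt i q.1)
      (fun (i : Fin k) (q : X × X) => Dt i q.2) i₀ q ∂P = P.real (SS C) / 2 := by
    rw [← e1]
    exact setIntegral_congr_set hR2S
  have e3 : ∫ q in R2, dl (fun (i : Fin k) (q : X × X) => Dt i q.1)
      (fun (i : Fin k) (q : X × X) => Dt i q.2) i₀ q ∂P =
      ∫ q in R2, (P[dl (fun (i : Fin k) (q : X × X) => Dt i q.1)
      (fun (i : Fin k) (q : X × X) => Dt i q.2) i₀ | Rt (TT T)]) q ∂P :=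
    (setIntegral_condExp (rt_le _) (hdi i₀) hR2).symm
  have e4 : ∫ q in R2, (P[dl (fun (i : Fin k) (q : X × X) => Dt i q.1)
      (fun (i : Fin k) (q : X × X) => Dt i q.2) i₀ | Rt (TT T)]) q ∂P ≤
      ∫ q in R2, (1 / 600 : ℝ) ∂P := by
    refine setIntegral_mono_on_ae integrable_condExp.integrableOn (integrable_const _)
      (rt_le _ _ hR2) ?_
    have hnn : ∀ᵐ q ∂P, ∀ i, 0 ≤ (P[dl (fun (i : Fin k) (q : X × X) => Dt i q.1)
      (fun (i : Fin k) (q : X × X) => Dt i q.2) i | Rt (TT T)]) q := by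
      rw [ae_all_iff]
      intro i
      exact condExp_nonneg (ae_of_all _ fun q => (dl_01 _ _ i q).1)
    filter_upwards [hM, hnn] with q hq hn hqR
    refine le_trans ?_ (hq hqR.1)
    unfold MM Mis
    exact Finset.single_le_sum (f := fun i => (P[dl (fun (i : Fin k) (q : X × X) => Dt i q.1)
      (fun (i : Fin k) (q : X × X) => Dt i q.2) i | Rt (TT T)]) q)
      (fun i _ => hn i) (Finset.mem_univ i₀)
  have e5 : ∫ q in R2, (1 / 600 : ℝ) ∂P = P.real (SS C) / 600 := by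
    rw [setIntegral_const, measureReal_congr hR2S, smul_eq_mul]
    ring
  rw [← e3, e2, e5] at e4
  linarith

theorem pf_END (hdr : T_DR) (htri : T_TRI) (hmn : T_MN) (hjt : T_JT) (hcl : T_CL) (hpm : T_PM)
    (hpe : T_PE) (hai : T_AI) (hrs : T_RS) (hdu : T_DU) (_hj2 : T_J2) (_hj3 : T_J3) : T_END := by
  intro c hcp
  have hT : MeasurePreserving c.T c.μ c.μ := c.erg.toMeasurePreserving
  have hT2 := tt_mp c.μ c.T hT
  have hDt : Tup c.Dt := ⟨fun i => c.Dm.comp (c.T.measurable.iterate _), fun i x => c.Dv _⟩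
  have hY : MeasurableSet[Rt c.T] c.Y := rt_of_inv c.T c.Q c.Qpos c.Y c.Ym c.Yinv
  have hXg : MeasurableSet[Rt c.T] c.Xg := hY.inter (c.em (measurableSet_Iic (a := 4 * κ₀)))
  have hD1 : ∀ x, |c.D x| ≤ 1 := fun x => by
    rcases c.Dv x with h | h <;> rw [h] <;> norm_num
  unfold CtxE.CP at hcp
  rw [hjt c.X c.μ] at hcp
  have h1 := hdr c (c.μ.prod c.μ) hT2 measurePreserving_fst measurePreserving_snd
  refine end_core htri hmn hcl hpm hpe hai hrs hdu c.μ c.T hT c.Dt hDt ⟨0, c.kpos⟩ c.D c.Dm hD1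
    (c.β ⟨0, c.kpos⟩) (fun x => rfl) c.mr c.Xg hXg ?_ hcp
  filter_upwards [h1] with q hq hqR
  have hx := hq hqR.1.1 hqR.2.1.1
  have ha : c.e q.1 ≤ 4 * κ₀ := hqR.1.2
  have hb : c.e q.2 ≤ 4 * κ₀ := hqR.2.1.2
  have hm : MM c.μ c.T c.Dt q ≤ 1 / 2 := hqR.2.2
  have hx' : MM c.μ c.T c.Dt q - MM c.μ c.T c.Dt q ^ 2 ≤ c.e q.1 + c.e q.2 := hx
  have hk : κ₀ = 1 / 10000 := rfl
  rw [hk] at ha hb
  by_cases h0 : 0 ≤ MM c.μ c.T c.Dt q
  · nlinarith
  · linarith [not_le.1 h0]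

end Pool.Agent.H36.AG
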