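import Pool.Agent.H67.AG.T1
import Pool.Agent.H67.AG.T4

/-! row END of the board gap_modules (MP_c59857_nt): auxiliary statements -/

set_option autoImplicit false

open MeasureTheory ProbabilityTheory Filter Topology Finset
open scoped Nat ENNReal

namespace Pool.Agent.H36.AG

open Pool.Agent.H67.AG

section inv

variable {Ω : Type} [mΩ : MeasurableSpace Ω]

theorem inv_iff (T : Ω ≃ᵐ Ω) (n : ℕ) (A : Set Ω) :
    MeasurableSet[Inv T n] A ↔ MeasurableSet A ∧ T^[n] ⁻¹' A = A := Iff.rfl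

theorem rt_le (T : Ω ≃ᵐ Ω) : Rt T ≤ mΩ :=
  iSup_le fun _ => MeasurableSpace.invariants_le _

theorem inv_mul (T : Ω ≃ᵐ Ω) (n m : ℕ) (A : Set Ω) (h : T^[n] ⁻¹' A = A) :
    T^[n * m] ⁻¹' A = A := by
  induction m with
  | zero => simp
  | succ m ih =>
    rw [Nat.mul_succ, Function.iterate_add, Set.preimage_comp, ih, h]

theorem rt_of_inv (T : Ω ≃ᵐ Ω) (Q : ℕ) (hQ : 0 < Q) (A : Set Ω) (hA : MeasurableSet A)
    (h : T^[Q] ⁻¹' A = A) : MeasurableSet[Rt T] A := by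
  obtain ⟨m, hm⟩ := Nat.dvd_factorial hQ le_rfl
  have h1 : MeasurableSet[Inv T (Q !)] A := by
    rw [inv_iff]
    refine ⟨hA, ?_⟩
    rw [hm]
    exact inv_mul T Q m A h
  exact le_iSup (fun w : ℕ => Inv T (w !)) Q A h1

theorem TT_iter (T : Ω ≃ᵐ Ω) (n : ℕ) (q : Ω × Ω) : (TT T)^[n] q = (T^[n] q.1, T^[n] q.2) := by
  induction n generalizing q with
  | zero => rfl
  | succ n ih =>
    rw [Function.iterate_succ_apply, Function.iterate_succ_apply, Function.iterate_succ_apply, ih]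
    rfl

theorem comap_rt {Ω' : Type} [MeasurableSpace Ω'] (T : Ω ≃ᵐ Ω) (T' : Ω' ≃ᵐ Ω') (g : Ω' → Ω)
    (hg : Measurable g) (hc : ∀ ω, g (T' ω) = T (g ω)) (A : Set Ω) (hA : MeasurableSet[Rt T] A) :
    MeasurableSet[Rt T'] (g ⁻¹' A) := by
  have h1 : MeasurableSpace.comap g (Rt T) ≤ Rt T' := by
    unfold Rt
    rw [MeasurableSpace.comap_iSup]
    refine iSup_mono fun w => ?_
    rintro _ ⟨B, hB, rfl⟩
    rw [inv_iff] at hB
    have hit : ∀ (n : ℕ) (ω : Ω'), g (T'^[n] ω) = T^[n] (g ω) := by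
      intro n
      induction n with
      | zero => intro ω; rfl
      | succ n ih => intro ω; rw [Function.iterate_succ_apply, ih, hc, Function.iterate_succ_apply]
    refine ⟨hg hB.1, ?_⟩
    ext ω
    simp only [Set.mem_preimage, hit]
    exact Set.ext_iff.1 hB.2 (g ω)
  exact h1 _ ⟨A, hA, rfl⟩

theorem rt_fst (T : Ω ≃ᵐ Ω) (A : Set Ω) (hA : MeasurableSet[Rt T] A) :
    MeasurableSet[Rt (TT T)] {q : Ω × Ω | q.1 ∈ A} :=
  comap_rt T (TT T) Prod.fst measurable_fst (fun _ => rfl) A hA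

theorem rt_snd (T : Ω ≃ᵐ Ω) (A : Set Ω) (hA : MeasurableSet[Rt T] A) :
    MeasurableSet[Rt (TT T)] {q : Ω × Ω | q.2 ∈ A} :=
  comap_rt T (TT T) Prod.snd measurable_snd (fun _ => rfl) A hA

end inv

/-- the mismatch is measurable -/
theorem mis_meas {Ω : Type} (m : MeasurableSpace Ω) [mΩ : MeasurableSpace Ω] (P : Measure Ω)
    {k : ℕ} (y y' : Fin k → Ω → ℝ) : Measurable[m] (Mis P m y y') := by
  unfold Mis
  refine Finset.measurable_sum _ fun i _ => ?_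
  exact stronglyMeasurable_condExp.measurable

theorem dl_meas {Ω : Type} [mΩ : MeasurableSpace Ω] {k : ℕ} (y y' : Fin k → Ω → ℝ)
    (hy : Tup y) (hy' : Tup y') (i : Fin k) : Measurable (dl y y' i) := by
  unfold dl
  exact Measurable.ite (measurableSet_eq_fun (hy.1 i) (hy'.1 i)) measurable_const measurable_const

theorem dl_01 {Ω : Type} {k : ℕ} (y y' : Fin k → Ω → ℝ) (i : Fin k) (ω : Ω) :
    0 ≤ dl y y' i ω ∧ dl y y' i ω ≤ 1 := by
  unfold dl
  split_ifs <;> norm_num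

/-- closeness: the set -/
def RR {X : Type} [MeasurableSpace X] (P : Measure (X × X)) (T : X ≃ᵐ X) {k : ℕ}
    (Dt : Fin k → X → ℝ) (Xg : Set X) : Set (X × X) :=
  {q | q.1 ∈ Xg ∧ q.2 ∈ Xg ∧
    Mis P (Rt (TT T)) (fun i q => Dt i q.1) (fun i q => Dt i q.2) q ≤ 1 / 2}

theorem RR_meas {X : Type} [MeasurableSpace X] (P : Measure (X × X)) (T : X ≃ᵐ X) {k : ℕ}
    (Dt : Fin k → X → ℝ) (Xg : Set X) (hX : MeasurableSet[Rt T] Xg) :
    MeasurableSet[Rt (TT T)] (RR P T Dt Xg) := by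
  have h1 := rt_fst T Xg hX
  have h2 := rt_snd T Xg hX
  have h3 : MeasurableSet[Rt (TT T)] {q : X × X |
      Mis P (Rt (TT T)) (fun i q => Dt i q.1) (fun i q => Dt i q.2) q ≤ 1 / 2} :=
    mis_meas (Rt (TT T)) P _ _ (measurableSet_Iic (a := (1 / 2 : ℝ)))
  exact h1.inter (h2.inter h3)

theorem tt_mp {X : Type} [MeasurableSpace X] (μ : Measure X) [IsProbabilityMeasure μ] (T : X ≃ᵐ X)
    (hT : MeasurePreserving T μ μ) : MeasurePreserving (TT T) (μ.prod μ) (μ.prod μ) :=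
  hT.prod hT

/-- symmetry -/
theorem mis_symm (htri : T_TRI) (hmn : T_MN) {X : Type} [MeasurableSpace X] (μ : Measure X)
    [IsProbabilityMeasure μ] (T : X ≃ᵐ X) (hT : MeasurePreserving T μ μ) {k : ℕ}
    (Dt : Fin k → X → ℝ) (hD : Tup Dt) :
    ∀ᵐ q ∂(μ.prod μ), Mis (μ.prod μ) (Rt (TT T)) (fun i q => Dt i q.1) (fun i q => Dt i q.2) q.swap
      = Mis (μ.prod μ) (Rt (TT T)) (fun i q => Dt i q.1) (fun i q => Dt i q.2) q := by
  have hT2 := tt_mp μ T hT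
  have t1 : Tup (fun (i : Fin k) (q : X × X) => Dt i q.1) :=
    ⟨fun i => (hD.1 i).comp measurable_fst, fun i q => hD.2 i q.1⟩
  have t2 : Tup (fun (i : Fin k) (q : X × X) => Dt i q.2) :=
    ⟨fun i => (hD.1 i).comp measurable_snd, fun i q => hD.2 i q.2⟩
  have hsw : Fac (μ.prod μ) (TT T) (μ.prod μ) (TT T) Prod.swap :=
    ⟨Measure.measurePreserving_swap, fun _ => rfl⟩
  have h1 := (hmn (X × X) (X × X) (μ.prod μ) (μ.prod μ) (TT T) (TT T) Prod.swap k
    (fun i q => Dt i q.1) (fun i q => Dt i q.2) hT2 hT2 hsw t1 t2).2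
  have h2 := (htri (X × X) (Rt (TT T)) (μ.prod μ) k (fun i q => Dt i q.2) (fun i q => Dt i q.1)
    (fun i q => Dt i q.1) (rt_le _) t2 t1 t1).2.1
  filter_upwards [h1, h2] with q e1 e2
  rw [← e1, ← e2]
  rfl

end Pool.Agent.H36.AG
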