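import Pool.Agent.H36.AG.E1

/-! row END of the board gap_modules (MP_c59857_nt): auxiliary statements, second part -/

set_option autoImplicit false

open MeasureTheory ProbabilityTheory Filter Topology Finset
open scoped Nat ENNReal

namespace Pool.Agent.H36.AG

open Pool.Agent.H67.AG

section

variable {X : Type} [MeasurableSpace X] (μ : Measure X) [IsProbabilityMeasure μ] (T : X ≃ᵐ X)
  {k : ℕ} (Dt : Fin k → X → ℝ)

/-- the mismatch of a pair -/
noncomputable def MM (q : X × X) : ℝ :=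
  Mis (μ.prod μ) (Rt (TT T)) (fun i q => Dt i q.1) (fun i q => Dt i q.2) q

/-- transitivity of the mismatch -/
theorem mis_trans (htri : T_TRI) (hmn : T_MN) (hT : MeasurePreserving T μ μ) (hD : Tup Dt) :
    ∀ᵐ ω ∂(μ.prod (μ.prod μ)), MM μ T Dt (ω.1, ω.2.2) ≤
      MM μ T Dt (ω.1, ω.2.1) + MM μ T Dt (ω.2.1, ω.2.2) := by
  have hT2 := tt_mp μ T hT
  have t1 : Tup (fun (i : Fin k) (q : X × X) => Dt i q.1) :=
    ⟨fun i => (hD.1 i).comp measurable_fst, fun i q => hD.2 i q.1⟩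
  have t2 : Tup (fun (i : Fin k) (q : X × X) => Dt i q.2) :=
    ⟨fun i => (hD.1 i).comp measurable_snd, fun i q => hD.2 i q.2⟩
  have hT3 : MeasurePreserving (T.prodCongr (TT T)) (μ.prod (μ.prod μ)) (μ.prod (μ.prod μ)) :=
    hT.prod hT2
  have f12 : Fac (μ.prod (μ.prod μ)) (T.prodCongr (TT T)) (μ.prod μ) (TT T)
      (fun ω : X × (X × X) => (ω.1, ω.2.1)) :=
    ⟨(MeasurePreserving.id μ).prod measurePreserving_fst, fun _ => rfl⟩
  have f13 : Fac (μ.prod (μ.prod μ)) (T.prodCongr (TT T)) (μ.prod μ) (TT T)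
      (fun ω : X × (X × X) => (ω.1, ω.2.2)) :=
    ⟨(MeasurePreserving.id μ).prod measurePreserving_snd, fun _ => rfl⟩
  have f23 : Fac (μ.prod (μ.prod μ)) (T.prodCongr (TT T)) (μ.prod μ) (TT T)
      (fun ω : X × (X × X) => ω.2) :=
    ⟨measurePreserving_snd, fun _ => rfl⟩
  have h12 := (hmn (X × (X × X)) (X × X) (μ.prod (μ.prod μ)) (μ.prod μ) (T.prodCongr (TT T)) (TT T)
    _ k (fun i q => Dt i q.1) (fun i q => Dt i q.2) hT3 hT2 f12 t1 t2).2
  have h13 := (hmn (X × (X × X)) (X × X) (μ.prod (μ.prod μ)) (μ.prod μ) (T.prodCongr (TT T)) (TT T)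
    _ k (fun i q => Dt i q.1) (fun i q => Dt i q.2) hT3 hT2 f13 t1 t2).2
  have h23 := (hmn (X × (X × X)) (X × X) (μ.prod (μ.prod μ)) (μ.prod μ) (T.prodCongr (TT T)) (TT T)
    _ k (fun i q => Dt i q.1) (fun i q => Dt i q.2) hT3 hT2 f23 t1 t2).2
  have s1 : Tup (fun (i : Fin k) (ω : X × (X × X)) => Dt i ω.1) :=
    ⟨fun i => (hD.1 i).comp measurable_fst, fun i q => hD.2 i q.1⟩
  have s2 : Tup (fun (i : Fin k) (ω : X × (X × X)) => Dt i ω.2.1) :=
    ⟨fun i => (hD.1 i).comp (measurable_fst.comp measurable_snd), fun i q => hD.2 i q.2.1⟩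
  have s3 : Tup (fun (i : Fin k) (ω : X × (X × X)) => Dt i ω.2.2) :=
    ⟨fun i => (hD.1 i).comp (measurable_snd.comp measurable_snd), fun i q => hD.2 i q.2.2⟩
  have htr := (htri (X × (X × X)) (Rt (T.prodCongr (TT T))) (μ.prod (μ.prod μ)) k _ _ _ (rt_le _)
    s1 s2 s3).1
  filter_upwards [h12, h13, h23, htr] with ω e12 e13 e23 e
  unfold MM
  rw [← e12, ← e13, ← e23]
  exact e

variable (Xg : Set X)

/-- the relation is symmetric and transitive -/
theorem rel_st (htri : T_TRI) (hmn : T_MN) (hT : MeasurePreserving T μ μ) (hD : Tup Dt)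
    (hM : ∀ᵐ q ∂(μ.prod μ), q ∈ RR (μ.prod μ) T Dt Xg → MM μ T Dt q ≤ 1 / 600) :
    (∀ᵐ q ∂(μ.prod μ), q ∈ RR (μ.prod μ) T Dt Xg → q.swap ∈ RR (μ.prod μ) T Dt Xg) ∧
    (∀ᵐ q ∂(μ.prod (μ.prod μ)), (q.1, q.2.1) ∈ RR (μ.prod μ) T Dt Xg →
      (q.2.1, q.2.2) ∈ RR (μ.prod μ) T Dt Xg → (q.1, q.2.2) ∈ RR (μ.prod μ) T Dt Xg) := by
  constructor
  · filter_upwards [mis_symm htri hmn μ T hT Dt hD] with q e hq
    refine ⟨hq.2.1, hq.1, ?_⟩
    rw [e]
    exact hq.2.2
  · have m12 : MeasurePreserving (fun ω : X × (X × X) => (ω.1, ω.2.1)) (μ.prod (μ.prod μ))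
        (μ.prod μ) := (MeasurePreserving.id μ).prod measurePreserving_fst
    have m23 : MeasurePreserving (fun ω : X × (X × X) => ω.2) (μ.prod (μ.prod μ))
        (μ.prod μ) := measurePreserving_snd
    filter_upwards [mis_trans μ T Dt htri hmn hT hD, m12.quasiMeasurePreserving.ae hM,
      m23.quasiMeasurePreserving.ae hM] with ω e e1 e2 h1 h2
    refine ⟨h1.1, h2.2.1, ?_⟩
    have e1' := e1 h1
    have e2' : MM μ T Dt (ω.2.1, ω.2.2) ≤ 1 / 600 := e2 h2
    change MM μ T Dt (ω.1, ω.2.2) ≤ 1 / 2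
    have e1'' : MM μ T Dt (ω.1, ω.2.1) ≤ 1 / 600 := e1'
    linarith

end

/-- the mass of the points with small sections -/
theorem small_sec {X : Type} [MeasurableSpace X] (μ : Measure X) [IsProbabilityMeasure μ]
    (R : Set (X × X)) (hR : MeasurableSet R) (c₀ : ℝ) (hc : 0 < c₀)
    (hsym : ∀ᵐ q ∂(μ.prod μ), q ∈ R → q.swap ∈ R) :
    (μ.prod μ).real {q | q ∈ R ∧ μ.real {x' | (q.1, x') ∈ R} < c₀} ≤ c₀ ∧
    (μ.prod μ).real {q | q ∈ R ∧ μ.real {x' | (q.2, x') ∈ R} < c₀} ≤ c₀ := by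
  have hm : Measurable fun x => μ.real {x' | (x, x') ∈ R} :=
    (measurable_measure_prodMk_left hR).ennreal_toReal
  have hS1 : MeasurableSet {q : X × X | q ∈ R ∧ μ.real {x' | (q.1, x') ∈ R} < c₀} :=
    hR.inter ((hm.comp measurable_fst) measurableSet_Iio)
  have hS2 : MeasurableSet {q : X × X | q ∈ R ∧ μ.real {x' | (q.2, x') ∈ R} < c₀} :=
    hR.inter ((hm.comp measurable_snd) measurableSet_Iio)
  have h1 : (μ.prod μ) {q | q ∈ R ∧ μ.real {x' | (q.1, x') ∈ R} < c₀} ≤ ENNReal.ofReal c₀ := by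
    rw [Measure.prod_apply hS1]
    calc ∫⁻ x, μ (Prod.mk x ⁻¹' {q | q ∈ R ∧ μ.real {x' | (q.1, x') ∈ R} < c₀}) ∂μ
        ≤ ∫⁻ _x, ENNReal.ofReal c₀ ∂μ := by
          refine lintegral_mono fun x => ?_
          by_cases hx : μ.real {x' | (x, x') ∈ R} < c₀
          · refine le_trans (measure_mono (t := {x' | (x, x') ∈ R}) fun y hy => hy.1) ?_
            rw [← ofReal_measureReal]
            exact ENNReal.ofReal_le_ofReal hx.le
          · have : (Prod.mk x ⁻¹' {q : X × X | q ∈ R ∧ μ.real {x' | (q.1, x') ∈ R} < c₀}) = ∅ := by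
              ext y
              simp only [Set.mem_preimage, Set.mem_ofPred_eq, Set.mem_empty_iff_false, iff_false]
              exact fun h => hx h.2
            rw [this]
            simp
      _ = ENNReal.ofReal c₀ := by simp
  have h2 : (μ.prod μ) {q | q ∈ R ∧ μ.real {x' | (q.2, x') ∈ R} < c₀} ≤ ENNReal.ofReal c₀ := by
    refine le_trans ?_ h1
    have e : (μ.prod μ) {q | q ∈ R ∧ μ.real {x' | (q.1, x') ∈ R} < c₀} =
        (μ.prod μ) (Prod.swap ⁻¹' {q | q ∈ R ∧ μ.real {x' | (q.1, x') ∈ R} < c₀}) :=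
      (Measure.measurePreserving_swap.measure_preimage hS1.nullMeasurableSet).symm
    rw [e]
    refine measure_mono_ae ?_
    filter_upwards [hsym] with q hq h
    exact ⟨hq h.1, h.2⟩
  constructor
  · rw [Measure.real]
    exact ENNReal.toReal_le_of_le_ofReal hc.le h1
  · rw [Measure.real]
    exact ENNReal.toReal_le_of_le_ofReal hc.le h2

/-- the dual function is the mass of the section -/
theorem sec_ae {X : Type} [MeasurableSpace X] (μ : Measure X) [IsProbabilityMeasure μ]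
    (R : Set (X × X)) (hR : MeasurableSet R) (ps : X → ℝ) (hp : Measurable ps)
    (h01 : ∀ x, 0 ≤ ps x ∧ ps x ≤ 1)
    (h : ∀ h : X → ℝ, Measurable h → (∃ C, ∀ ω, |h ω| ≤ C) →
      ∫ ω, R.indicator (fun _ => (1 : ℝ)) ω * h ω.1 ∂(μ.prod μ) = ∫ ω, ps ω * h ω ∂μ) :
    ps =ᵐ[μ] fun x => μ.real {x' | (x, x') ∈ R} := by
  have hm : Measurable fun x => μ.real {x' | (x, x') ∈ R} :=
    (measurable_measure_prodMk_left hR).ennreal_toReal
  have i1 : Integrable ps μ := by
    refine Integrable.of_bound hp.aestronglyMeasurable 1 (ae_of_all _ fun x => ?_)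
    rw [Real.norm_eq_abs, abs_le]
    constructor <;> linarith [(h01 x).1, (h01 x).2]
  have i2 : Integrable (fun x => μ.real {x' | (x, x') ∈ R}) μ := by
    refine Integrable.of_bound hm.aestronglyMeasurable 1 (ae_of_all _ fun x => ?_)
    rw [Real.norm_eq_abs, abs_of_nonneg measureReal_nonneg]
    exact measureReal_le_one
  refine Integrable.ae_eq_of_forall_setIntegral_eq _ _ i1 i2 fun s hs _ => ?_
  have e := h (s.indicator fun _ => 1) (measurable_const.indicator hs)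
    ⟨1, fun ω => by
      by_cases hω : ω ∈ s <;> simp [hω]⟩
  have e1 : ∫ ω, ps ω * s.indicator (fun _ => (1 : ℝ)) ω ∂μ = ∫ x in s, ps x ∂μ := by
    rw [← integral_indicator hs]
    refine integral_congr_ae (ae_of_all _ fun ω => ?_)
    by_cases hω : ω ∈ s <;> simp [hω]
  rw [← e1, ← e]
  have i3 : Integrable (fun ω : X × X => R.indicator (fun _ => (1 : ℝ)) ω *
      s.indicator (fun _ => (1 : ℝ)) ω.1) (μ.prod μ) := by
    refine Integrable.of_bound (((measurable_const.indicator hR).mul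
      ((measurable_const.indicator hs).comp measurable_fst)).aestronglyMeasurable) 1
      (ae_of_all _ fun ω => ?_)
    by_cases h1 : ω ∈ R <;> by_cases h2 : ω.1 ∈ s <;> simp [h1, h2]
  rw [integral_prod _ i3, ← integral_indicator hs]
  refine integral_congr_ae (ae_of_all _ fun x => ?_)
  have : ∀ y, R.indicator (fun _ => (1 : ℝ)) (x, y) * s.indicator (fun _ => (1 : ℝ)) x =
      s.indicator (fun _ => (1 : ℝ)) x * ({x' | (x, x') ∈ R}.indicator (fun _ => (1 : ℝ)) y) := by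
    intro y
    by_cases h1 : (x, y) ∈ R <;> simp [h1]
  have hsec : MeasurableSet {x' | (x, x') ∈ R} := measurable_prodMk_left hR
  simp only [this]
  rw [integral_const_mul, integral_indicator_const _ hsec]
  by_cases hx : x ∈ s <;> simp [hx]

end Pool.Agent.H36.AG
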