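import Pool.Agent.H36.AG.E2

/-! row END of the board gap_modules (MP_c59857_nt): auxiliary statements, third part -/

set_option autoImplicit false

open MeasureTheory ProbabilityTheory Filter Topology Finset
open scoped Nat ENNReal

namespace Pool.Agent.H36.AG

open Pool.Agent.H67.AG

/-- an invariant function is orthogonal to the translates of `D` -/
theorem inv_orth {X : Type} [MeasurableSpace X] (μ : Measure X) [IsProbabilityMeasure μ]
    (T : X ≃ᵐ X) (hT : MeasurePreserving T μ μ) (W b : ℕ) (D : X → ℝ) (hD : Measurable D)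
    (hD1 : ∀ x, |D x| ≤ 1) (hmr : μ[D | Inv T W] =ᵐ[μ] 0) (ph : X → ℝ)
    (hph : Measurable[Inv T W] ph) (hi : Integrable ph μ) :
    ∫ x, ph x * D (T^[b] x) ∂μ = 0 := by
  have hph' : Measurable ph := hph.mono (MeasurableSpace.invariants_le _) le_rfl
  -- the translate
  have hcomm : ∀ x, T.symm^[b] (T^[W] x) = T^[W] (T.symm^[b] x) := by
    intro x
    have hc : Function.Commute (T.symm : X → X) (T : X → X) := fun y => by simp
    exact ((hc.iterate_left b).iterate_right W) x
  have hps : Measurable[Inv T W] fun x => ph (T.symm^[b] x) := by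
    have h1 : @Measurable X X (Inv T W) (Inv T W) (T.symm^[b]) :=
      MeasurableSpace.measurable_invariants_of_semiconj (T.symm.measurable.iterate b) hcomm
    exact hph.comp h1
  have hinv : ∀ x, T.symm^[b] (T^[b] x) = x := by
    intro x
    have hl : Function.LeftInverse (T.symm : X → X) (T : X → X) := fun y => by simp
    exact (hl.iterate b) x
  have hTb : MeasurePreserving (T^[b]) μ μ := hT.iterate b
  have hsymm : MeasurePreserving (T.symm : X → X) μ μ := hT.symm T
  have hsb : MeasurePreserving (T.symm^[b]) μ μ := hsymm.iterate b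
  have e1 : ∫ x, ph x * D (T^[b] x) ∂μ = ∫ x, ph (T.symm^[b] x) * D x ∂μ := by
    have h2 : ∫ y, ph (T.symm^[b] y) * D y ∂(Measure.map (T^[b]) μ) =
        ∫ x, ph (T.symm^[b] (T^[b] x)) * D (T^[b] x) ∂μ :=
      integral_map hTb.measurable.aemeasurable
        (((hph'.comp (T.symm.measurable.iterate b)).mul hD).aestronglyMeasurable)
    rw [hTb.map_eq] at h2
    rw [h2]
    simp only [hinv]
  rw [e1]
  have hi' : Integrable (fun x => ph (T.symm^[b] x)) μ := hsb.integrable_comp_of_integrable hi
  have iD : Integrable D μ := Integrable.of_bound hD.aestronglyMeasurable 1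
    (ae_of_all _ fun x => by rw [Real.norm_eq_abs]; exact hD1 x)
  have iprod : Integrable ((fun x => ph (T.symm^[b] x)) * D) μ := by
    refine hi'.mul_bdd (c := 1) hD.aestronglyMeasurable
      (ae_of_all _ fun x => by rw [Real.norm_eq_abs]; exact hD1 x)
  have e2 := condExp_mul_of_stronglyMeasurable_left (m := Inv T W) (μ := μ)
    hps.stronglyMeasurable iprod iD
  have e3 : ∫ x, ph (T.symm^[b] x) * D x ∂μ =
      ∫ x, (μ[(fun x => ph (T.symm^[b] x)) * D | Inv T W]) x ∂μ :=
    (integral_condExp (MeasurableSpace.invariants_le _)).symm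
  rw [e3, integral_congr_ae e2]
  have e4 : ((fun x => ph (T.symm^[b] x)) * μ[D | Inv T W]) =ᵐ[μ] 0 := by
    filter_upwards [hmr] with x hx
    simp [hx]
  rw [integral_congr_ae e4]
  simp

/-- the integral over a nearly invariant set -/
theorem int_small {X : Type} [MeasurableSpace X] (μ : Measure X) [IsProbabilityMeasure μ]
    (T : X ≃ᵐ X) (hT : MeasurePreserving T μ μ) (W b : ℕ) (D : X → ℝ) (hD : Measurable D)
    (hD1 : ∀ x, |D x| ≤ 1) (hmr : μ[D | Inv T W] =ᵐ[μ] 0) (A : Set X) (hA : MeasurableSet A)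
    (e : ℝ) (he : ∫ ω, |A.indicator (fun _ => (1 : ℝ)) ω -
      (μ[A.indicator (fun _ => (1 : ℝ)) | Inv T W]) ω| ∂μ ≤ e) :
    |∫ x in A, D (T^[b] x) ∂μ| ≤ e := by
  set f : X → ℝ := A.indicator (fun _ => (1 : ℝ)) with hf
  have hfm : Measurable f := measurable_const.indicator hA
  have hDb : Measurable fun x => D (T^[b] x) := hD.comp (T.measurable.iterate b)
  have hDb1 : ∀ x, ‖D (T^[b] x)‖ ≤ 1 := fun x => by rw [Real.norm_eq_abs]; exact hD1 _
  have if1 : Integrable f μ := (integrable_const 1).indicator hA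
  have e1 : ∫ x in A, D (T^[b] x) ∂μ = ∫ x, f x * D (T^[b] x) ∂μ := by
    rw [← integral_indicator hA]
    refine integral_congr_ae (ae_of_all _ fun x => ?_)
    by_cases hx : x ∈ A <;> simp [hf, hx]
  have i1 : Integrable (fun x => (f x - (μ[f | Inv T W]) x) * D (T^[b] x)) μ :=
    (if1.sub integrable_condExp).mul_bdd (c := 1) hDb.aestronglyMeasurable (ae_of_all _ hDb1)
  have i2 : Integrable (fun x => (μ[f | Inv T W]) x * D (T^[b] x)) μ :=
    integrable_condExp.mul_bdd (c := 1) hDb.aestronglyMeasurable (ae_of_all _ hDb1)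
  have e2 : ∫ x, f x * D (T^[b] x) ∂μ = ∫ x, (f x - (μ[f | Inv T W]) x) * D (T^[b] x) ∂μ := by
    have h0 := inv_orth μ T hT W b D hD hD1 hmr (μ[f | Inv T W])
      stronglyMeasurable_condExp.measurable integrable_condExp
    have h1 : ∫ x, f x * D (T^[b] x) ∂μ = ∫ x, ((f x - (μ[f | Inv T W]) x) * D (T^[b] x) +
        (μ[f | Inv T W]) x * D (T^[b] x)) ∂μ :=
      integral_congr_ae (ae_of_all _ fun x => by ring)
    rw [h1, integral_add i1 i2, h0, add_zero]
  rw [e1, e2]
  refine le_trans (abs_integral_le_integral_abs) (le_trans ?_ he)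
  refine integral_mono i1.abs (if1.sub integrable_condExp).abs fun x => ?_
  simp only [abs_mul]
  have := hDb1 x
  rw [Real.norm_eq_abs] at this
  nlinarith [abs_nonneg (f x - (μ[f | Inv T W]) x)]

/-- the union of the squares of the classes -/
def SS {X : Type} {r : ℕ} (C : Fin r → Set X) : Set (X × X) := {q | ∃ a, q.1 ∈ C a ∧ q.2 ∈ C a}

theorem SS_eq {X : Type} {r : ℕ} (C : Fin r → Set X) : SS C = ⋃ a, C a ×ˢ C a := by
  ext q
  simp [SS]

theorem SS_meas {X : Type} [MeasurableSpace X] {r : ℕ} (C : Fin r → Set X)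
    (hC : ∀ a, MeasurableSet (C a)) : MeasurableSet (SS C) := by
  rw [SS_eq]
  exact MeasurableSet.iUnion fun a => (hC a).prod (hC a)

/-- the integral of the product over the classes -/
theorem SS_int {X : Type} [MeasurableSpace X] (μ : Measure X) [IsProbabilityMeasure μ] {r : ℕ}
    (C : Fin r → Set X) (hC : ∀ a, MeasurableSet (C a)) (hdis : Pairwise fun a b => Disjoint (C a) (C b))
    (u : X → ℝ) (hu : Measurable u) (hu1 : ∀ x, |u x| ≤ 1) (h0 : ∀ a, ∫ x in C a, u x ∂μ = 0) :
    ∫ q in SS C, u q.1 * u q.2 ∂(μ.prod μ) = 0 := by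
  have hi : Integrable (fun q : X × X => u q.1 * u q.2) (μ.prod μ) := by
    refine Integrable.of_bound ((hu.comp measurable_fst).mul
      (hu.comp measurable_snd)).aestronglyMeasurable 1 (ae_of_all _ fun q => ?_)
    rw [Real.norm_eq_abs, abs_mul]
    have h1 := hu1 q.1
    have h2 := hu1 q.2
    have h3 := abs_nonneg (u q.1)
    have h4 := abs_nonneg (u q.2)
    nlinarith
  rw [SS_eq, integral_iUnion_fintype (fun a => (hC a).prod (hC a))
    (fun a b hab => Set.disjoint_left.2 fun q h1 h2 => Set.disjoint_left.1 (hdis hab) h1.1 h2.1)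
    (fun a => hi.integrableOn)]
  refine Finset.sum_eq_zero fun a _ => ?_
  rw [setIntegral_prod_mul, h0 a, zero_mul]

end Pool.Agent.H36.AG
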